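import Pool.Agent.V7.GA.Main

/-!
# V7, block GAMMA: the form used in the block TOP
-/

set_option autoImplicit false

namespace Pool.Agent.V7.GA

open Finset Pool.Agent.H51.TB Pool.Agent.H54.V7

theorem gamma_inp (M c k : ℕ) (hk : k + 1 = M) (hM : 2 ≤ M)
    (hc : 2 * (2 * M - 1).choose M * M < c) :
    ∃ e : ℝ, 0 < e ∧ ∃ n₀ : ℕ, ∀ n : ℕ, n₀ ≤ n → ∀ (κ : Type) [Fintype κ] (rest : κ → Kd),
      Cls0 M c k n e (fun τ => ((univ : Finset κ).val.map rest).count τ) →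
      Gn κ (Fin n ⊕ Fin n) fun p => ∀ f ∈ (LS M (blk c n) k).V rest p,
        (∀ a : {a // a ∈ Ex (blk c n) (2 * M - 1) k},
          ∑ s ∈ univ.filter (fun s => blk c n s < k), a.1 s ≤ k → f a = 0) → f = 0 := by
  obtain rfl : k = M - 1 := by omega
  obtain ⟨e, he, n₀, h⟩ := gamma M c hM hc
  refine ⟨e, he, n₀, fun n hn κ _ rest hr => ?_⟩
  refine (h n hn _ hr κ rest rfl).mono fun p hp f hf h0 => hp f hf fun a ha => h0 a (le_of_eq ha)

end Pool.Agent.V7.GA
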