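import Pool.Agent.V7.GA.Basic

/-!
# V7, block GAMMA: a nonzero form is not `M`-fold at general points of some type
-/

set_option autoImplicit false
set_option linter.unusedSectionVars false

namespace Pool.Agent.V7.GA

open Finset MvPolynomial Pool.Agent.H51.TB Pool.Agent.H54.V7 Pool.Agent.V7.ST
open Pool.Agent.H18.Ex (tcr)

variable {ν : Type} [Fintype ν] [DecidableEq ν]

/-- The types of the level `j` which are used. -/
def Good (M j : ℕ) (I : Finset ℕ) : Prop :=
  I ⊆ range j ∧ j + 1 ≤ I.card + M ∧ ¬ range (M - 1) ⊆ I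

/-- The part of an exponent on the blocks of `I`. -/
def inI (β : ν → ℕ) (I : Finset ℕ) (a : ν → ℕ) : ν → ℕ := fun s => if β s ∈ I then a s else 0

/-- The part of an exponent off the blocks of `I`. -/
noncomputable def offI (β : ν → ℕ) (I : Finset ℕ) (a : ν → ℕ) : ν →₀ ℕ :=
  Finsupp.equivFunOnFinite.symm fun s => if β s ∈ I then 0 else a s

theorem offI_apply (β : ν → ℕ) (I : Finset ℕ) (a : ν → ℕ) (s : ν) :
    offI β I a s = if β s ∈ I then 0 else a s := rfl

/-- The Taylor coefficient of order `b` (on the blocks of `I`) at a point which vanishes on the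
blocks of `I`. -/
theorem tcr_inI (β : ν → ℕ) (I : Finset ℕ) (a e : ν → ℕ) :
    tcr (msk β I fun s => (X s : MvPolynomial ν ℂ)) e (inI β I a) =
      if (∀ s, β s ∈ I → e s = a s) then monomial (offI β I e) (1 : ℂ) else 0 := by
  split_ifs with h
  · have h1 : (monomial (offI β I e) (1 : ℂ) : MvPolynomial ν ℂ) =
        ∏ s, (X s : MvPolynomial ν ℂ) ^ (offI β I e s) := by
      rw [monomial_eq, C_1, one_mul]
      exact Finsupp.prod_fintype _ _ fun s => pow_zero _
    rw [h1]
    unfold tcr
    refine prod_congr rfl fun s _ => ?_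
    rw [offI_apply]
    unfold inI msk
    by_cases hs : β s ∈ I
    · rw [if_pos hs, if_pos hs, if_pos hs, h s hs, Nat.choose_self, Nat.sub_self, pow_zero,
        pow_zero, Nat.cast_one, one_mul]
    · rw [if_neg hs, if_neg hs, if_neg hs, Nat.choose_zero_right, Nat.sub_zero, Nat.cast_one,
        one_mul]
  · push Not at h
    obtain ⟨s, hs, hne⟩ := h
    unfold tcr
    refine prod_eq_zero (mem_univ s) ?_
    unfold inI msk
    rw [if_pos hs, if_pos hs]
    rcases Nat.lt_or_gt_of_ne hne with h1 | h1
    · rw [Nat.choose_eq_zero_of_lt h1, Nat.cast_zero, zero_mul]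
    · rw [zero_pow (by omega), mul_zero]

/-- A form with a nonzero coefficient at `a` is not `M`-fold at a general point of type `I`, if the
degree of `a` in the blocks of `I` is less than `M`. -/
theorem exists_not_mem {M : ℕ} {β : ν → ℕ} {A : Finset (ν → ℕ)} (I : Finset ℕ)
    (F : {a // a ∈ A} → ℂ) (a : {a // a ∈ A}) (ha : F a ≠ 0)
    (hd : ∑ s ∈ univ.filter (fun s => β s ∈ I), a.1 s < M) :
    ∃ q : ν → ℂ, F ∉ (SG M β A).V (fun _ : Unit => I) fun _ => q := by
  classical
  let G : MvPolynomial ν ℂ := ∑ e : {a // a ∈ A},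
    C (F e) * tcr (msk β I fun s => (X s : MvPolynomial ν ℂ)) e.1 (inI β I a.1)
  have hG : G ≠ 0 := by
    intro h0
    apply ha
    have h1 : coeff (offI β I a.1) G = F a := by
      show coeff (offI β I a.1) (∑ e : {a // a ∈ A},
        C (F e) * tcr (msk β I fun s => (X s : MvPolynomial ν ℂ)) e.1 (inI β I a.1)) = F a
      rw [coeff_sum]
      rw [sum_eq_single a]
      · rw [coeff_C_mul, tcr_inI, if_pos fun s _ => rfl, coeff_monomial, if_pos rfl, mul_one]
      · intro e _ he
        rw [coeff_C_mul, tcr_inI]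
        split_ifs with h
        · rw [coeff_monomial, if_neg, mul_zero]
          intro h2
          apply he
          apply Subtype.ext
          funext s
          by_cases hs : β s ∈ I
          · exact h s hs
          · have h3 := DFunLike.congr_fun h2 s
            rw [offI_apply, offI_apply, if_neg hs, if_neg hs] at h3
            exact h3
        · rw [coeff_zero, mul_zero]
      · intro h
        exact absurd (mem_univ a) h
    rw [← h1, h0, coeff_zero]
  have hex : ∃ q : ν → ℂ, eval q G ≠ 0 := by
    by_contra hc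
    push Not at hc
    exact hG (MvPolynomial.funext fun q => by rw [hc q, map_zero])
  obtain ⟨q, hq⟩ := hex
  refine ⟨q, fun hF => hq ?_⟩
  rw [mem_SG] at hF
  have h1 := hF () (inI β I a.1) (by
    have h2 : ∑ s, inI β I a.1 s = ∑ s ∈ univ.filter (fun s => β s ∈ I), a.1 s := by
      rw [sum_filter]
      rfl
    rw [h2]
    exact hd)
  show eval q (∑ e : {a // a ∈ A},
        C (F e) * tcr (msk β I fun s => (X s : MvPolynomial ν ℂ)) e.1 (inI β I a.1)) = 0
  rw [map_sum, ← h1]
  refine sum_congr rfl fun e _ => ?_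
  rw [map_mul, eval_C, eval_tcr_X]

/-- Every nonzero form violates the conditions of a point of one of the smallest types. -/
theorem exists_type {M j : ℕ} {β : ν → ℕ} {W : Finset ν} (hj : M - 1 ≤ j) (hj2 : j + 1 < 2 * M)
    (F : {a // a ∈ Ag M β j W} → ℂ) (hF : F ≠ 0) :
    ∃ I ∈ {I : Finset ℕ | Good M j I ∧ I.card + M = j + 1}, ∃ q : ν → ℂ,
      F ∉ (SG M β (Ag M β j W)).V (fun _ : Unit => I) fun _ => q := by
  classical
  obtain ⟨a, ha⟩ := Function.ne_iff.mp hF
  have hA := mem_Ag.mp a.2
  obtain ⟨⟨hdeg, hmeet⟩, hW, hx⟩ := hA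
  -- a block of degree at least two
  have h0 : ∃ i₀ < M - 1, 2 ≤ ∑ s ∈ univ.filter (fun s => β s = i₀), a.1 s := by
    by_contra hc
    push Not at hc
    have h1 : ∑ s ∈ univ.filter (fun s => β s < M - 1), a.1 s =
        ∑ i ∈ range (M - 1), ∑ s ∈ (univ.filter (fun s => β s < M - 1)).filter (fun s => β s = i),
          a.1 s :=
      (sum_fiberwise_of_maps_to (fun s hs => mem_range.mpr (mem_filter.mp hs).2) _).symm
    have h2 : ∑ i ∈ range (M - 1), ∑ s ∈ (univ.filter (fun s => β s < M - 1)).filter
        (fun s => β s = i), a.1 s ≤ ∑ i ∈ range (M - 1), 1 := by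
      refine sum_le_sum fun i hi => ?_
      have h3 := hc i (mem_range.mp hi)
      have h4 : (univ.filter (fun s => β s < M - 1)).filter (fun s => β s = i) =
          univ.filter fun s => β s = i := by
        ext s
        simp only [mem_filter, mem_univ, true_and]
        have := mem_range.mp hi
        constructor
        · exact fun h => h.2
        · exact fun h => ⟨by omega, h⟩
      rw [h4]
      omega
    rw [sum_const, card_range, smul_eq_mul, mul_one] at h2
    omega
  obtain ⟨i₀, hi₀, h2⟩ := h0
  have hi₀j : i₀ ∈ range j := mem_range.mpr (by omega)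
  obtain ⟨I, hI, hIc⟩ := exists_subset_card_eq (s := (range j).erase i₀) (n := j + 1 - M) (by
    rw [card_erase_of_mem hi₀j, card_range]
    omega)
  have hI₀ : i₀ ∉ I := fun h => (mem_erase.mp (hI h)).1 rfl
  have hIj : I ⊆ range j := fun i hi => (mem_erase.mp (hI hi)).2
  have hd : ∑ s ∈ univ.filter (fun s => β s ∈ I), a.1 s < M := by
    have h3 := card_le_deg β a.1 (((range j) \ I).erase i₀) fun i hi =>
      hmeet i (mem_range.mp (mem_sdiff.mp (mem_erase.mp hi).2).1)
    have h4 : (((range j) \ I).erase i₀).card + (j + 1 - M) + 1 = j := by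
      rw [card_erase_of_mem (mem_sdiff.mpr ⟨hi₀j, hI₀⟩), card_sdiff_of_subset hIj, card_range, hIc]
      have : 1 ≤ j - (j + 1 - M) := by omega
      omega
    have h5 : ∑ s ∈ univ.filter (fun s => β s ∈ I), a.1 s +
        ∑ s ∈ univ.filter (fun s => β s ∈ ((range j) \ I).erase i₀), a.1 s +
        ∑ s ∈ univ.filter (fun s => β s = i₀), a.1 s ≤ ∑ s, a.1 s := by
      rw [← sum_union, ← sum_union]
      · exact sum_le_sum_of_subset (subset_univ _)
      · rw [disjoint_left]
        intro s hs hs'
        rw [mem_filter] at hs'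
        rw [mem_union, mem_filter, mem_filter] at hs
        rcases hs with hs | hs
        · exact hI₀ (by rw [← hs'.2]; exact hs.2)
        · exact (mem_erase.mp hs.2).1 hs'.2
      · rw [disjoint_left]
        intro s hs hs'
        rw [mem_filter] at hs hs'
        exact (mem_sdiff.mp (mem_erase.mp hs'.2).2).2 hs.2
    omega
  obtain ⟨q, hq⟩ := exists_not_mem I F a ha hd
  refine ⟨I, ⟨⟨hIj, by omega, fun h => hI₀ (h (mem_range.mpr hi₀))⟩, by omega⟩, q, hq⟩

end Pool.Agent.V7.GA
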