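import Pool.Agent.V7.GA.Trace
import Pool.Agent.V7.GA.Kill

/-!
# V7, block GAMMA: the induction
-/

set_option autoImplicit false
set_option linter.unusedSectionVars false

namespace Pool.Agent.V7.GA

open Finset MvPolynomial Pool.Agent.H51.TB Pool.Agent.H54.V7 Pool.Agent.V7.ST

/-- `κ q.choose (|I| - (j + 1 - M))` points of each good type `I` kill all forms, if the blocks
`0, …, j - 1` have at most `c` variables and there are less than `(q + 1) c` other variables. -/
def PP (M c j κ : ℕ) : Prop :=
  ∀ (ν : Type) [Fintype ν] [DecidableEq ν] (β : ν → ℕ) (W : Finset ν) (q : ℕ),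
    (∀ i < j, (W.filter fun s => β s = i).card ≤ c) →
    (W.filter fun s => j ≤ β s).card < (q + 1) * c →
    ∀ s : Multiset (Finset ℕ), (∀ I ∈ s, I ⊆ range j) →
      (∀ I, Good M j I → κ * q.choose (I.card + M - (j + 1)) ≤ s.count I) →
      gM (SG M β (Ag M β j W)) s = 0

theorem pp_top {M : ℕ} (c κ : ℕ) (hM : 1 ≤ M) : PP M c (2 * M - 1) κ := by
  intro ν _ _ β W q _ _ s _ _
  have h1 : Ag M β (2 * M - 1) W = ∅ := by
    rw [eq_empty_iff_forall_notMem]
    intro a ha
    obtain ⟨⟨hdeg, hmeet⟩, _, hx⟩ := mem_Ag.mp ha
    have h2 := card_le_deg β a (Ico (M - 1) (2 * M - 1)) fun i hi =>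
      hmeet i (mem_Ico.mp hi).2
    rw [Nat.card_Ico] at h2
    have h3 : ∑ s ∈ univ.filter (fun s => β s < M - 1), a s +
        ∑ s ∈ univ.filter (fun s => β s ∈ Ico (M - 1) (2 * M - 1)), a s ≤ ∑ s, a s := by
      rw [← sum_union]
      · exact sum_le_sum_of_subset (subset_univ _)
      · rw [disjoint_left]
        intro s hs hs'
        rw [mem_filter] at hs hs'
        have := (mem_Ico.mp hs'.2).1
        omega
    omega
  have h2 := gM_anti (SG M β (Ag M β (2 * M - 1) W)) (Multiset.zero_le s)
  rw [gM_zero, Fintype.card_coe, h1, card_empty] at h2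
  rw [h1]
  omega

open Classical in
/-- The points which are put on the subspace. -/
noncomputable def onp (M j κ q : ℕ) : Multiset (Finset ℕ) :=
  ∑ I ∈ (range j).powerset.filter (Good M j),
    Multiset.replicate (κ * q.choose (I.card + M - (j + 1))) I

theorem count_onp (M j κ q : ℕ) (J : Finset ℕ) (hJ : Good M j J) :
    (onp M j κ q).count J = κ * q.choose (J.card + M - (j + 1)) := by
  classical
  unfold onp
  rw [Multiset.count_sum', sum_eq_single J]
  · rw [Multiset.count_replicate_self]
  · intro I _ hIJ
    rw [Multiset.count_replicate, if_neg hIJ]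
  · intro h
    exfalso
    apply h
    rw [mem_filter, mem_powerset]
    exact ⟨hJ.1, hJ⟩

theorem count_onp_not (M j κ q : ℕ) (J : Finset ℕ) (hJ : ¬ Good M j J) :
    (onp M j κ q).count J = 0 := by
  classical
  unfold onp
  rw [Multiset.count_sum']
  refine sum_eq_zero fun I hI => ?_
  rw [Multiset.count_replicate, if_neg]
  intro h
  exact hJ (by rw [← h]; exact (mem_filter.mp hI).2)

theorem mem_onp {M j κ q : ℕ} {J : Finset ℕ} (h : J ∈ onp M j κ q) : Good M j J := by
  by_contra hc
  have := count_onp_not M j κ q J hc
  rw [Multiset.count_eq_zero] at this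
  exact this h

theorem onp_le {M j κ q : ℕ} {s : Multiset (Finset ℕ)}
    (h : ∀ I, Good M j I → κ * q.choose (I.card + M - (j + 1)) ≤ s.count I) :
    onp M j κ q ≤ s := by
  rw [Multiset.le_iff_count]
  intro J
  by_cases hJ : Good M j J
  · rw [count_onp M j κ q J hJ]
    exact h J hJ
  · rw [count_onp_not M j κ q J hJ]
    exact Nat.zero_le _

theorem card_W {ν : Type} [Fintype ν] [DecidableEq ν] (β : ν → ℕ) (W : Finset ν) (j c : ℕ)
    (h1 : ∀ i < j, (W.filter fun s => β s = i).card ≤ c)
    (h2 : (W.filter fun s => j ≤ β s).card < c) : W.card ≤ (j + 1) * c := by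
  have e1 : (W.filter fun s => β s < j).card = ∑ i ∈ range j,
      ((W.filter fun s => β s < j).filter fun s => β s = i).card :=
    card_eq_sum_card_fiberwise fun s hs => by
      have := (mem_filter.mp hs).2
      exact mem_coe.mpr (mem_range.mpr this)
  have e2 : ∑ i ∈ range j, ((W.filter fun s => β s < j).filter fun s => β s = i).card ≤
      ∑ i ∈ range j, c := by
    refine sum_le_sum fun i hi => ?_
    refine le_trans (card_le_card ?_) (h1 i (mem_range.mp hi))
    intro s hs
    rw [mem_filter, mem_filter] at hs
    rw [mem_filter]
    exact ⟨hs.1.1, hs.2⟩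
  rw [sum_const, card_range, smul_eq_mul] at e2
  have e3 : (W.filter fun s => β s < j).card + (W.filter fun s => ¬ β s < j).card = W.card :=
    card_filter_add_card_filter_not _
  have e4 : W.filter (fun s => ¬ β s < j) = W.filter fun s => j ≤ β s :=
    filter_congr fun s _ => not_lt
  rw [e4] at e3
  have e5 : (j + 1) * c = j * c + c := by ring
  omega

/-- The dimension is bounded. -/
theorem bound {M c j κ : ℕ} (hM : 1 ≤ M) (hj : M - 1 ≤ j) (hP : PP M c (j + 1) κ)
    {ν : Type} [Fintype ν] [DecidableEq ν] (β : ν → ℕ) (q : ℕ) : ∀ W : Finset ν,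
    (∀ i < j, (W.filter fun s => β s = i).card ≤ c) →
    (W.filter fun s => j ≤ β s).card < (q + 1) * c →
    ∀ s : Multiset (Finset ℕ), (∀ I ∈ s, I ⊆ range j) →
      (∀ I, Good M j I → κ * q.choose (I.card + M - (j + 1)) ≤ s.count I) →
      gM (SG M β (Ag M β j W)) s ≤ (2 * M) ^ ((j + 1) * c) := by
  induction q with
  | zero =>
    intro W hW1 hW2 s _ _
    refine (gM_anti _ (Multiset.zero_le s)).trans ?_
    rw [gM_zero, Fintype.card_coe]
    refine (card_Ag_le hM β j W).trans (Nat.pow_le_pow_right (by omega) ?_)
    rw [zero_add, one_mul] at hW2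
    exact card_W β W j c hW1 hW2
  | succ q ih =>
    intro W hW1 hW2 s hs hc
    by_cases hz : (W.filter fun s => j ≤ β s).card < (q + 1) * c
    · refine ih W hW1 hz s hs fun I hI => le_trans ?_ (hc I hI)
      exact Nat.mul_le_mul_left _ (Nat.choose_le_choose _ (Nat.le_succ q))
    · have hc1 : c ≤ (W.filter fun s => j ≤ β s).card := by
        have : (q + 1) * c = q * c + c := by ring
        have := Nat.zero_le (q * c)
        omega
      obtain ⟨Bk, hBk, hBc⟩ := exists_subset_card_eq hc1
      have hB : ∀ s ∈ Bk, j ≤ β s := fun s hs => (mem_filter.mp (hBk hs)).2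
      have hBW : ∀ s ∈ Bk, s ∈ W := fun s hs => (mem_filter.mp (hBk hs)).1
      have hle : onp M j κ q ≤ s := onp_le fun I hI => le_trans
        (Nat.mul_le_mul_left _ (Nat.choose_le_choose _ (Nat.le_succ q))) (hc I hI)
      have hst : onp M j κ q + (s - onp M j κ q) = s := add_tsub_cancel_of_le hle
      have hon : ∀ I ∈ onp M j κ q, I ⊆ range j := fun I hI => (mem_onp hI).1
      have hoff : ∀ I ∈ s - onp M j κ q, I ⊆ range j := fun I hI =>
        hs I (Multiset.mem_of_le tsub_le_self hI)
      have h1 := gM_trace (M := M) (W := W) hj hB (onp M j κ q) (s - onp M j κ q) hon hoff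
      rw [hst] at h1
      refine h1.trans ?_
      have hcard : ((W \ Bk).filter fun s => j ≤ β s).card + c =
          (W.filter fun s => j ≤ β s).card := by
        have e1 : ((W \ Bk).filter fun s => j ≤ β s) = (W.filter fun s => j ≤ β s) \ Bk := by
          ext s
          simp only [mem_filter, mem_sdiff]
          tauto
        rw [e1, card_sdiff_of_subset hBk, hBc]
        omega
      have h2 := ih (W \ Bk) (fun i hi => le_trans (card_le_card (by
          intro s hs
          rw [mem_filter, mem_sdiff] at hs
          rw [mem_filter]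
          exact ⟨hs.1.1, hs.2⟩)) (hW1 i hi)) (by
          have : (q + 1 + 1) * c = (q + 1) * c + c := by ring
          omega) (onp M j κ q) hon fun I hI => le_of_eq (count_onp M j κ q I hI).symm
      have h3 : gM (SG M (nb β j Bk) (Ag M (nb β j Bk) (j + 1) W))
          ((onp M j κ q).map (insert j) + (s - onp M j κ q)) = 0 := by
        refine hP ν (nb β j Bk) W q ?_ ?_ _ ?_ ?_
        · intro i hi
          rcases Nat.lt_succ_iff_lt_or_eq.mp hi with hi | hi
          · have e1 : (W.filter fun s => nb β j Bk s = i) = W.filter fun s => β s = i :=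
              filter_congr fun s _ => nb_lt hB hi
            rw [e1]
            exact hW1 i hi
          · rw [hi, ← hBc]
            refine card_le_card fun s hs => ?_
            exact nb_eq.mp (mem_filter.mp hs).2
        · have e1 : (W.filter fun s => j + 1 ≤ nb β j Bk s) ⊆
              (W \ Bk).filter fun s => j ≤ β s := by
            intro s hs
            rw [mem_filter] at hs ⊢
            rw [mem_sdiff]
            have h5 : s ∉ Bk := by
              intro h
              have := (nb_eq (β := β) (j := j)).mpr h
              omega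
            refine ⟨⟨hs.1, h5⟩, ?_⟩
            by_contra h6
            have h7 := (nb_lt (Bk := Bk) hB (i := β s) (s := s) (by omega)).mpr rfl
            omega
          have e2 := card_le_card e1
          have : (q + 1 + 1) * c = (q + 1) * c + c := by ring
          omega
        · intro I hI
          rcases Multiset.mem_add.mp hI with hI | hI
          · obtain ⟨J, hJ, rfl⟩ := Multiset.mem_map.mp hI
            intro i hi
            rcases mem_insert.mp hi with hi | hi
            · rw [hi]
              exact mem_range.mpr (Nat.lt_succ_self j)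
            · exact mem_range.mpr (Nat.lt_succ_of_lt (mem_range.mp (hon J hJ hi)))
          · exact (hoff I hI).trans (range_subset_range.mpr (Nat.le_succ j))
        · intro J hJ
          rw [Multiset.count_add]
          by_cases hjJ : j ∈ J
          · have hg : Good M j (J.erase j) := by
              refine ⟨?_, ?_, ?_⟩
              · intro i hi
                have h5 := mem_range.mp (hJ.1 (mem_erase.mp hi).2)
                have h6 := (mem_erase.mp hi).1
                exact mem_range.mpr (by omega)
              · rw [card_erase_of_mem hjJ]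
                have h5 := hJ.2.1
                have h6 := card_pos.mpr ⟨j, hjJ⟩
                omega
              · intro h
                exact hJ.2.2 (h.trans (erase_subset _ _))
            have h5 : κ * q.choose (J.card + M - (j + 1 + 1)) ≤
                ((onp M j κ q).map (insert j)).count J := by
              have h6 := Multiset.count_map (b := J) (insert j) (onp M j κ q)
              rw [h6]
              have h7 : Multiset.replicate ((onp M j κ q).count (J.erase j)) (J.erase j) ≤
                  Multiset.filter (fun a => J = insert j a) (onp M j κ q) := by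
                rw [Multiset.le_iff_count]
                intro K
                rw [Multiset.count_replicate]
                split_ifs with hK
                · rw [← hK, Multiset.count_filter_of_pos (p := fun a => J = insert j a) (insert_erase hjJ).symm]
                · exact Nat.zero_le _
              have h8 := Multiset.card_le_card h7
              rw [Multiset.card_replicate, count_onp M j κ q _ hg, card_erase_of_mem hjJ] at h8
              have h9 := card_pos.mpr ⟨j, hjJ⟩
              have h10 : J.card - 1 + M - (j + 1) = J.card + M - (j + 1 + 1) := by omega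
              rw [h10] at h8
              exact h8
            omega
          · have hJj : J ⊆ range j := by
              intro i hi
              have h5 := mem_range.mp (hJ.1 hi)
              have h6 : i ≠ j := fun h => hjJ (by rw [← h]; exact hi)
              exact mem_range.mpr (by omega)
            have hg : Good M j J := ⟨hJj, by have := hJ.2.1; omega, hJ.2.2⟩
            have h5 := hc J hg
            rw [Multiset.count_sub, count_onp M j κ q J hg]
            have h6 : J.card + M - (j + 1) = J.card + M - (j + 1 + 1) + 1 := by
              have := hJ.2.1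
              omega
            rw [h6, Nat.choose_succ_succ', mul_add] at h5
            rw [h6]
            omega
      omega

/-- The induction step. -/
theorem pp_step {M c j κ : ℕ} (hM : 1 ≤ M) (hj : M - 1 ≤ j) (hj2 : j + 1 < 2 * M)
    (hP : PP M c (j + 1) κ) : PP M c j (κ + (2 * M) ^ ((j + 1) * c)) := by
  classical
  intro ν _ _ β W q hW1 hW2 s hs hc
  have hle : onp M j κ q ≤ s := onp_le fun I hI => le_trans
        (Nat.mul_le_mul_right _ (Nat.le_add_right _ _)) (hc I hI)
  have hst : onp M j κ q + (s - onp M j κ q) = s := add_tsub_cancel_of_le hle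
  have h1 := bound hM hj hP β q W hW1 hW2 (onp M j κ q) (fun I hI => (mem_onp hI).1)
    fun I hI => le_of_eq (count_onp M j κ q I hI).symm
  have h2 := gM_kill (SG M β (Ag M β j W)) _ (exists_type hj hj2) _ (onp M j κ q)
    (s - onp M j κ q) h1 (by
      rintro I ⟨hI, hIc⟩
      have h3 := hc I hI
      rw [Multiset.count_sub, count_onp M j κ q I hI]
      have h4 : I.card + M - (j + 1) = 0 := by omega
      rw [h4, Nat.choose_zero_right, mul_one] at h3
      rw [h4, Nat.choose_zero_right, mul_one]
      omega)
  rw [hst] at h2
  exact h2

/-- The statement at all levels `M - 1 ≤ j ≤ 2 M - 1`. -/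
theorem exists_pp {M : ℕ} (c : ℕ) (hM : 1 ≤ M) (d : ℕ) : ∀ j, j + d = 2 * M - 1 → M - 1 ≤ j →
    ∃ κ, PP M c j κ := by
  induction d with
  | zero =>
    intro j hj _
    have h1 : j = 2 * M - 1 := by omega
    rw [h1]
    exact ⟨0, pp_top c 0 hM⟩
  | succ d ih =>
    intro j hj hj2
    obtain ⟨κ, hκ⟩ := ih (j + 1) (by omega) (by omega)
    exact ⟨_, pp_step hM hj2 (by omega) hκ⟩

end Pool.Agent.V7.GA
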