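import Pool.Agent.V7.Defs
import Pool.Agent.V7.ST.TraceAbs
import Pool.Agent.V7.ST.Ms

/-!
# V7, block GAMMA: ordinary `M`-fold points on forms of a given set of exponents

`SG M β A` is the system of the forms with the exponents `A` and of the ordinary points of
multiplicity `M` (types: the sets `I` of blocks where the point vanishes).
-/

set_option autoImplicit false
set_option linter.unusedSectionVars false

namespace Pool.Agent.V7.GA

open Finset MvPolynomial Pool.Agent.H51.TB Pool.Agent.H54.V7 Pool.Agent.V7.ST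
open Pool.Agent.H18.Ex (tcr)

/-! ### Multisets of types -/

theorem gM_anti {E ν T : Type} [Fintype E] (S : Sys E ν T) {s t : Multiset T} (h : s ≤ t) :
    gM S t ≤ gM S s := by
  obtain ⟨u, rfl⟩ := Multiset.le_iff_exists_add.mp h
  induction u using Multiset.induction_on with
  | empty => rw [add_zero]
  | cons a u ih =>
    rw [Multiset.add_cons]
    exact (gM_cons_le S _ a).trans (ih (Multiset.le_add_right _ _))

/-- If every nonzero element violates the conditions of a point of one of the types of `T₀`, then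
`H` rounds of points of these types kill a solution space of dimension at most `H`. -/
theorem gM_kill {E ν T : Type} [Fintype E] (S : Sys E ν T) (T₀ : Set T) [DecidableEq T]
    (hT : ∀ F : E → ℂ, F ≠ 0 → ∃ t ∈ T₀, ∃ q : ν → ℂ, F ∉ S.V (fun _ : Unit => t) fun _ => q)
    (H : ℕ) : ∀ s₀ s₁ : Multiset T, gM S s₀ ≤ H → (∀ t ∈ T₀, H ≤ s₁.count t) →
      gM S (s₀ + s₁) = 0 := by
  induction H with
  | zero =>
    intro s₀ s₁ h0 _
    have h1 := gM_anti S (Multiset.le_add_right s₀ s₁)
    omega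
  | succ H ih =>
    intro s₀ s₁ h0 h1
    by_cases hz : gM S s₀ = 0
    · have h2 := gM_anti S (Multiset.le_add_right s₀ s₁)
      omega
    obtain ⟨m, hm, hmg⟩ := exists_conf S s₀
    obtain ⟨p, hp⟩ := gd_attained S m
    have hne : S.V m p ≠ ⊥ := by
      intro hb
      rw [hb, finrank_bot] at hp
      omega
    obtain ⟨F, hF, hF0⟩ := Submodule.exists_mem_ne_zero_of_ne_bot hne
    obtain ⟨t, ht, q, hq⟩ := hT F hF0
    have hlt : S.V (ad m t) (Sum.elim p fun _ => q) < S.V m p := by
      unfold ad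
      rw [V_elim]
      refine lt_of_le_of_ne inf_le_left fun he => hq ?_
      have h3 : F ∈ S.V m p ⊓ S.V (fun _ : Unit => t) fun _ => q := by
        rw [he]
        exact hF
      exact h3.2
    have h4 := Submodule.finrank_lt_finrank_of_lt hlt
    have h5 := gd_le S (ad m t) (Sum.elim p fun _ => q)
    rw [gd_eq_gM S (ad m t), map_ad, hm] at h5
    have h6 : 0 < s₁.count t := lt_of_lt_of_le (Nat.succ_pos H) (h1 t ht)
    rw [Multiset.count_pos] at h6
    have h7 := ih (t ::ₘ s₀) (s₁.erase t) (by omega) (by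
      intro u hu
      by_cases hut : u = t
      · subst hut
        rw [Multiset.count_erase_self]
        have := h1 u hu
        omega
      · rw [Multiset.count_erase_of_ne hut]
        exact (Nat.le_succ H).trans (h1 u hu))
    rw [Multiset.cons_add, ← Multiset.add_cons, Multiset.cons_erase h6] at h7
    exact h7

/-! ### The systems -/

variable {ν : Type} [Fintype ν] [DecidableEq ν]

/-- Forms with the exponents `A`, ordinary points of multiplicity `M`. -/
noncomputable def SG (M : ℕ) (β : ν → ℕ) (A : Finset (ν → ℕ)) :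
    Sys {a // a ∈ A} ν (Finset ℕ) where
  R := fun _ => {b : ν → ℕ // ∑ s, b s < M}
  fin := fun _ => finite_lt M _ fun _ hb => hb.le
  co := fun I r e => tcr (msk β I fun s => X s) e.1 r.1

theorem eval_tcr_X (β : ν → ℕ) (I : Finset ℕ) (q : ν → ℂ) (e b : ν → ℕ) :
    eval q (tcr (msk β I fun s => (X s : MvPolynomial ν ℂ)) e b) = tcr (msk β I q) e b := by
  unfold tcr
  rw [map_prod]
  refine prod_congr rfl fun s _ => ?_
  rw [map_mul, map_pow, map_natCast]
  congr 2
  unfold msk
  split_ifs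
  · rw [map_zero]
  · rw [eval_X]

theorem mem_SG (M : ℕ) (β : ν → ℕ) (A : Finset (ν → ℕ)) {κ : Type} (m : κ → Finset ℕ)
    (p : κ → ν → ℂ) (f : {a // a ∈ A} → ℂ) :
    f ∈ (SG M β A).V m p ↔ ∀ i, Fat (fun e : {a // a ∈ A} => e.1) M (msk β (m i) (p i)) f := by
  rw [Sys.mem_V]
  refine forall_congr' fun x => ?_
  constructor
  · intro h b hb
    rw [← h (⟨b, hb⟩ : {b : ν → ℕ // ∑ s, b s < M})]
    refine sum_congr rfl fun e _ => ?_
    show _ = eval (p x) (tcr (msk β (m x) fun s => (X s : MvPolynomial ν ℂ)) e.1 b) * f e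
    rw [eval_tcr_X, mul_comm]
  · intro h r
    rw [← h r.1 r.2]
    refine sum_congr rfl fun e _ => ?_
    show eval (p x) (tcr (msk β (m x) fun s => (X s : MvPolynomial ν ℂ)) e.1 r.1) * f e = _
    rw [eval_tcr_X, mul_comm]

/-- A sum over a smaller set of exponents. -/
theorem sum_sub {A A₂ : Finset (ν → ℕ)} (h : A₂ ⊆ A) (F : {a // a ∈ A} → ℂ)
    (h0 : ∀ e : {a // a ∈ A}, e.1 ∉ A₂ → F e = 0) :
    ∑ e : {a // a ∈ A₂}, F ⟨e.1, h e.2⟩ = ∑ e : {a // a ∈ A}, F e := by
  refine Fintype.sum_of_injective (fun e : {a // a ∈ A₂} => (⟨e.1, h e.2⟩ : {a // a ∈ A})) ?_ _ _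
    ?_ fun _ => rfl
  · intro x y hxy
    exact Subtype.ext (congrArg (fun z : {a // a ∈ A} => z.1) hxy)
  · intro e he
    refine h0 e fun h1 => he ⟨⟨e.1, h1⟩, rfl⟩

theorem tcr_zero_of {q : ν → ℂ} {e b : ν → ℕ} (s : ν)
    (h : (((e s).choose (b s) : ℕ) : ℂ) * q s ^ (e s - b s) = 0) : tcr q e b = 0 := by
  unfold tcr
  exact prod_eq_zero (mem_univ s) h

/-! ### The exponents -/

/-- The exponents of degree `2 M - 1` which meet the blocks `0, …, j - 1`, have degree at least `M`
in the blocks `0, …, M - 2` and are supported on `W`. -/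
def Ag (M : ℕ) (β : ν → ℕ) (j : ℕ) (W : Finset ν) : Finset (ν → ℕ) :=
  (Ex β (2 * M - 1) j).filter fun a =>
    (∀ s, a s ≠ 0 → s ∈ W) ∧ M ≤ ∑ s ∈ univ.filter (fun s => β s < M - 1), a s

theorem mem_Ag {M : ℕ} {β : ν → ℕ} {j : ℕ} {W : Finset ν} {a : ν → ℕ} :
    a ∈ Ag M β j W ↔ (∑ s, a s = 2 * M - 1 ∧ ∀ i < j, ∃ s, β s = i ∧ a s ≠ 0) ∧
      (∀ s, a s ≠ 0 → s ∈ W) ∧ M ≤ ∑ s ∈ univ.filter (fun s => β s < M - 1), a s := by
  unfold Ag
  rw [mem_filter, mem_Ex]

/-- An exponent which meets the blocks of `T` has degree at least `|T|` there. -/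
theorem card_le_deg (β : ν → ℕ) (a : ν → ℕ) (T : Finset ℕ)
    (h : ∀ i ∈ T, ∃ s, β s = i ∧ a s ≠ 0) :
    T.card ≤ ∑ s ∈ univ.filter (fun s => β s ∈ T), a s := by
  have h1 : ∑ s ∈ univ.filter (fun s => β s ∈ T), a s =
      ∑ i ∈ T, ∑ s ∈ (univ.filter (fun s => β s ∈ T)).filter (fun s => β s = i), a s :=
    (sum_fiberwise_of_maps_to (fun s hs => (mem_filter.mp hs).2) _).symm
  rw [h1, card_eq_sum_ones]
  refine sum_le_sum fun i hi => ?_
  obtain ⟨s, hs, has⟩ := h i hi
  have h2 : s ∈ (univ.filter (fun s => β s ∈ T)).filter (fun s => β s = i) := by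
    rw [mem_filter, mem_filter]
    exact ⟨⟨mem_univ s, by rw [hs]; exact hi⟩, hs⟩
  have h3 := single_le_sum (f := a) (fun _ _ => Nat.zero_le _) h2
  omega

/-- The number of exponents is bounded in terms of `|W|`. -/
theorem card_Ag_le {M : ℕ} (hM : 1 ≤ M) (β : ν → ℕ) (j : ℕ) (W : Finset ν) :
    (Ag M β j W).card ≤ (2 * M) ^ W.card := by
  classical
  have hlt : ∀ a ∈ Ag M β j W, ∀ s, a s < 2 * M := by
    intro a ha s
    have h1 := (mem_Ag.mp ha).1.1
    have h2 := single_le_sum (f := a) (fun _ _ => Nat.zero_le _) (mem_univ s)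
    omega
  have h1 : Fintype.card {a // a ∈ Ag M β j W} ≤ Fintype.card ({s // s ∈ W} → Fin (2 * M)) := by
    refine Fintype.card_le_of_injective
      (fun a s => ⟨a.1 s.1, hlt a.1 a.2 s.1⟩) ?_
    intro a b hab
    apply Subtype.ext
    funext s
    by_cases hs : s ∈ W
    · exact congrArg Fin.val (congrFun hab ⟨s, hs⟩)
    · have ha := (mem_Ag.mp a.2).2.1 s
      have hb := (mem_Ag.mp b.2).2.1 s
      by_contra hne
      by_cases h0 : a.1 s = 0
      · exact hs (hb fun h => hne (by rw [h0, h]))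
      · exact hs (ha h0)
  rw [Fintype.card_coe] at h1
  refine h1.trans ?_
  rw [Fintype.card_fun, Fintype.card_fin, Fintype.card_coe]

end Pool.Agent.V7.GA
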