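import Pool.Agent.V7.GA.Basic

/-!
# V7, block GAMMA: the trace step

A set `Bk` of variables with block numbers `≥ j` becomes the block `j`.
-/

set_option autoImplicit false
set_option linter.unusedSectionVars false

namespace Pool.Agent.V7.GA

open Finset MvPolynomial Pool.Agent.H51.TB Pool.Agent.H54.V7 Pool.Agent.V7.ST
open Pool.Agent.H18.Ex (tcr)

variable {ν : Type} [Fintype ν] [DecidableEq ν]

/-- The new block numbers: `Bk` becomes the block `j`. -/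
def nb (β : ν → ℕ) (j : ℕ) (Bk : Finset ν) : ν → ℕ := fun s =>
  if s ∈ Bk then j else if β s < j then β s else j + 1

theorem nb_lt {β : ν → ℕ} {j : ℕ} {Bk : Finset ν} (hB : ∀ s ∈ Bk, j ≤ β s) {s : ν} {i : ℕ}
    (hi : i < j) : nb β j Bk s = i ↔ β s = i := by
  unfold nb
  by_cases h1 : s ∈ Bk
  · rw [if_pos h1]
    have := hB s h1
    omega
  · rw [if_neg h1]
    split_ifs <;> omega

theorem nb_eq {β : ν → ℕ} {j : ℕ} {Bk : Finset ν} {s : ν} :
    nb β j Bk s = j ↔ s ∈ Bk := by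
  unfold nb
  by_cases h1 : s ∈ Bk
  · rw [if_pos h1]
    exact ⟨fun _ => h1, fun _ => rfl⟩
  · rw [if_neg h1]
    constructor
    · intro h
      exfalso
      split_ifs at h <;> omega
    · intro h
      exact absurd h h1

theorem nb_mem {β : ν → ℕ} {j : ℕ} {Bk : Finset ν} (hB : ∀ s ∈ Bk, j ≤ β s) {s : ν}
    {I : Finset ℕ} (hI : I ⊆ range j) : nb β j Bk s ∈ I ↔ β s ∈ I := by
  constructor
  · intro h
    have h1 := mem_range.mp (hI h)
    have h2 := (nb_lt hB h1).mp rfl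
    rw [h2]
    exact h
  · intro h
    have h1 := mem_range.mp (hI h)
    have h2 := (nb_lt (Bk := Bk) hB h1).mpr rfl
    rw [h2]
    exact h

theorem nb_lt_iff {β : ν → ℕ} {j : ℕ} {Bk : Finset ν} (hB : ∀ s ∈ Bk, j ≤ β s) {s : ν} {i : ℕ}
    (hi : i ≤ j) : nb β j Bk s < i ↔ β s < i := by
  have h1 := nb_mem (s := s) hB (I := range i) (range_subset_range.mpr hi)
  rw [mem_range, mem_range] at h1
  exact h1

theorem msk_nb {β : ν → ℕ} {j : ℕ} {Bk : Finset ν} (hB : ∀ s ∈ Bk, j ≤ β s)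
    {I : Finset ℕ} (hI : I ⊆ range j) (q : ν → ℂ) : msk (nb β j Bk) I q = msk β I q := by
  funext s
  unfold msk
  by_cases h : β s ∈ I
  · rw [if_pos h, if_pos ((nb_mem hB hI).mpr h)]
  · rw [if_neg h, if_neg fun h' => h ((nb_mem hB hI).mp h')]

/-- The position on the subspace where the variables of `Bk` vanish. -/
def zb (Bk : Finset ν) (q : ν → ℂ) : ν → ℂ := fun s => if s ∈ Bk then 0 else q s

theorem msk_nb_insert {β : ν → ℕ} {j : ℕ} {Bk : Finset ν} (hB : ∀ s ∈ Bk, j ≤ β s)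
    {I : Finset ℕ} (hI : I ⊆ range j) (q : ν → ℂ) :
    msk (nb β j Bk) (insert j I) q = msk β I (zb Bk q) := by
  funext s
  unfold msk zb
  by_cases h : s ∈ Bk
  · rw [if_pos (mem_insert.mpr (Or.inl (nb_eq.mpr h))), if_pos h]
    split_ifs <;> rfl
  · rw [if_neg h]
    by_cases h' : β s ∈ I
    · rw [if_pos h', if_pos (mem_insert.mpr (Or.inr ((nb_mem hB hI).mpr h')))]
    · rw [if_neg h', if_neg]
      intro h2
      rcases mem_insert.mp h2 with h2 | h2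
      · exact h (nb_eq.mp h2)
      · exact h' ((nb_mem hB hI).mp h2)

theorem Ag_sdiff_subset (M : ℕ) (β : ν → ℕ) (j : ℕ) (W Bk : Finset ν) :
    Ag M β j (W \ Bk) ⊆ Ag M β j W := by
  intro a ha
  rw [mem_Ag] at ha ⊢
  exact ⟨ha.1, fun s hs => (mem_sdiff.mp (ha.2.1 s hs)).1, ha.2.2⟩

theorem Ag_nb_subset {M : ℕ} {β : ν → ℕ} {j : ℕ} {W Bk : Finset ν} (hj : M - 1 ≤ j)
    (hB : ∀ s ∈ Bk, j ≤ β s) : Ag M (nb β j Bk) (j + 1) W ⊆ Ag M β j W := by
  intro a ha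
  rw [mem_Ag] at ha ⊢
  refine ⟨⟨ha.1.1, fun i hi => ?_⟩, ha.2.1, ?_⟩
  · obtain ⟨s, hs, h0⟩ := ha.1.2 i (by omega)
    exact ⟨s, (nb_lt hB hi).mp hs, h0⟩
  · have h1 : univ.filter (fun s => nb β j Bk s < M - 1) = univ.filter fun s => β s < M - 1 :=
      filter_congr fun s _ => nb_lt_iff hB hj
    rw [← h1]
    exact ha.2.2

theorem Ag_cover {M : ℕ} {β : ν → ℕ} {j : ℕ} {W Bk : Finset ν} (hj : M - 1 ≤ j)
    (hB : ∀ s ∈ Bk, j ≤ β s) {a : ν → ℕ} (ha : a ∈ Ag M β j W) :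
    a ∈ Ag M β j (W \ Bk) ∨ a ∈ Ag M (nb β j Bk) (j + 1) W := by
  rw [mem_Ag] at ha
  by_cases h : ∃ s ∈ Bk, a s ≠ 0
  · right
    rw [mem_Ag]
    refine ⟨⟨ha.1.1, fun i hi => ?_⟩, ha.2.1, ?_⟩
    · rcases Nat.lt_succ_iff_lt_or_eq.mp hi with hi | hi
      · obtain ⟨s, hs, h0⟩ := ha.1.2 i hi
        exact ⟨s, (nb_lt hB hi).mpr hs, h0⟩
      · obtain ⟨s, hs, h0⟩ := h
        exact ⟨s, by rw [hi]; exact nb_eq.mpr hs, h0⟩
    · have h1 : univ.filter (fun s => nb β j Bk s < M - 1) = univ.filter fun s => β s < M - 1 :=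
        filter_congr fun s _ => nb_lt_iff hB hj
      rw [h1]
      exact ha.2.2
  · left
    push Not at h
    rw [mem_Ag]
    exact ⟨ha.1, fun s hs => mem_sdiff.mpr ⟨ha.2.1 s hs, fun hsB => hs (h s hsB)⟩, ha.2.2⟩

theorem Ag_zero_of_mem {M : ℕ} {β : ν → ℕ} {j : ℕ} {W Bk : Finset ν} {a : ν → ℕ}
    (ha : a ∈ Ag M β j (W \ Bk)) : ∀ s ∈ Bk, a s = 0 := by
  intro s hs
  by_contra h0
  exact (mem_sdiff.mp ((mem_Ag.mp ha).2.1 s h0)).2 hs

theorem exists_ne_of_not_mem {M : ℕ} {β : ν → ℕ} {j : ℕ} {W Bk : Finset ν} {a : ν → ℕ}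
    (ha : a ∈ Ag M β j W) (h : a ∉ Ag M β j (W \ Bk)) : ∃ s ∈ Bk, a s ≠ 0 := by
  by_contra hc
  push Not at hc
  apply h
  rw [mem_Ag] at ha ⊢
  exact ⟨ha.1, fun s hs => mem_sdiff.mpr ⟨ha.2.1 s hs, fun hsB => hs (hc s hsB)⟩, ha.2.2⟩

/-- The restriction of a form which is `M`-fold at a point of the subspace. -/
theorem fat_trace {M : ℕ} {β : ν → ℕ} {j : ℕ} {W Bk : Finset ν} (I : Finset ℕ) (q : ν → ℂ)
    (f : {a // a ∈ Ag M β j W} → ℂ)
    (h : Fat (fun e : {a // a ∈ Ag M β j W} => e.1) M (msk β I (zb Bk q)) f) :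
    Fat (fun e : {a // a ∈ Ag M β j (W \ Bk)} => e.1) M (msk β I q)
      fun e => f ⟨e.1, Ag_sdiff_subset M β j W Bk e.2⟩ := by
  intro b hb
  by_cases hbB : ∃ s ∈ Bk, b s ≠ 0
  · obtain ⟨s, hs, hb0⟩ := hbB
    refine sum_eq_zero fun e _ => ?_
    rw [tcr_zero_of s, mul_zero]
    show (((e.1 s).choose (b s) : ℕ) : ℂ) * msk β I q s ^ (e.1 s - b s) = 0
    rw [Ag_zero_of_mem e.2 s hs, Nat.choose_eq_zero_of_lt (Nat.pos_of_ne_zero hb0), Nat.cast_zero,
      zero_mul]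
  · push Not at hbB
    have h1 := sum_sub (Ag_sdiff_subset M β j W Bk)
      (fun e : {a // a ∈ Ag M β j W} => f e * tcr (msk β I (zb Bk q)) e.1 b) (by
        intro e he
        obtain ⟨s, hs, h0⟩ := exists_ne_of_not_mem e.2 he
        show f e * tcr (msk β I (zb Bk q)) e.1 b = 0
        rw [tcr_zero_of s, mul_zero]
        have h2 : msk β I (zb Bk q) s = 0 := by
          unfold msk zb
          rw [if_pos hs]
          split_ifs <;> rfl
        rw [h2, hbB s hs, Nat.sub_zero, zero_pow h0, mul_zero])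
    rw [← h b hb, ← h1]
    refine sum_congr rfl fun e _ => ?_
    show _ = f _ * tcr (msk β I (zb Bk q)) e.1 b
    congr 1
    unfold tcr
    refine prod_congr rfl fun s _ => ?_
    show (((e.1 s).choose (b s) : ℕ) : ℂ) * msk β I q s ^ (e.1 s - b s) =
      (((e.1 s).choose (b s) : ℕ) : ℂ) * msk β I (zb Bk q) s ^ (e.1 s - b s)
    by_cases hs : s ∈ Bk
    · rw [Ag_zero_of_mem e.2 s hs, Nat.zero_sub, pow_zero, pow_zero]
    · congr 2
      unfold msk zb
      rw [if_neg hs]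

/-- A form which vanishes on the subspace has its conditions on the remaining exponents. -/
theorem fat_res {M : ℕ} {β : ν → ℕ} {j : ℕ} {W Bk : Finset ν} (hj : M - 1 ≤ j)
    (hB : ∀ s ∈ Bk, j ≤ β s) (p : ν → ℂ) (f : {a // a ∈ Ag M β j W} → ℂ)
    (h : Fat (fun e : {a // a ∈ Ag M β j W} => e.1) M p f)
    (h0 : ∀ e : {a // a ∈ Ag M β j (W \ Bk)}, f ⟨e.1, Ag_sdiff_subset M β j W Bk e.2⟩ = 0) :
    Fat (fun e : {a // a ∈ Ag M (nb β j Bk) (j + 1) W} => e.1) M p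
      fun e => f ⟨e.1, Ag_nb_subset hj hB e.2⟩ := by
  intro b hb
  rw [← h b hb]
  refine sum_sub (Ag_nb_subset hj hB)
      (fun e : {a // a ∈ Ag M β j W} => f e * tcr p e.1 b) ?_
  intro e he
  show f e * tcr p e.1 b = 0
  rcases Ag_cover hj hB e.2 with h1 | h1
  · have h2 : f e = 0 := h0 ⟨e.1, h1⟩
    rw [h2, zero_mul]
  · exact absurd h1 he

/-- The trace step: the points of `s` are put on the subspace where the variables of `Bk`
vanish. -/
theorem gM_trace {M : ℕ} {β : ν → ℕ} {j : ℕ} {W Bk : Finset ν} (hj : M - 1 ≤ j)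
    (hB : ∀ s ∈ Bk, j ≤ β s) (s t : Multiset (Finset ℕ)) (hs : ∀ I ∈ s, I ⊆ range j)
    (ht : ∀ I ∈ t, I ⊆ range j) :
    gM (SG M β (Ag M β j W)) (s + t) ≤ gM (SG M β (Ag M β j (W \ Bk))) s +
      gM (SG M (nb β j Bk) (Ag M (nb β j Bk) (j + 1) W)) (s.map (insert j) + t) := by
  obtain ⟨m, hm, hmg⟩ := exists_conf (SG M β (Ag M β j (W \ Bk))) s
  obtain ⟨n, hn, _⟩ := exists_conf (SG M β (Ag M β j (W \ Bk))) t
  have hms : ∀ i, m i ⊆ range j := by
    intro i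
    apply hs
    rw [← hm]
    exact Multiset.mem_map_of_mem m (mem_univ i)
  have hnt : ∀ i, n i ⊆ range j := by
    intro i
    apply ht
    rw [← hn]
    exact Multiset.mem_map_of_mem n (mem_univ i)
  have h1 := gd_trace (SG M β (Ag M β j W)) (SG M β (Ag M β j (W \ Bk)))
    (SG M (nb β j Bk) (Ag M (nb β j Bk) (j + 1) W))
    (fun e => ⟨e.1, Ag_sdiff_subset M β j W Bk e.2⟩) (fun e => ⟨e.1, Ag_nb_subset hj hB e.2⟩)
    (by
      intro e
      rcases Ag_cover hj hB e.2 with h | h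
      · exact Or.inl ⟨⟨e.1, h⟩, rfl⟩
      · exact Or.inr ⟨⟨e.1, h⟩, rfl⟩)
    id Function.injective_id (zb Bk) m (fun i => insert j (m i)) n
    (by
      intro i q f hf
      rw [mem_SG] at hf ⊢
      exact fun u => fat_trace (m i) q f (hf u))
    (by
      intro i q f hf h0
      rw [mem_SG] at hf ⊢
      intro u
      rw [msk_nb_insert hB (hms i)]
      exact fat_res hj hB _ f (hf u) h0)
    (by
      intro i q f hf h0
      rw [mem_SG] at hf ⊢
      intro u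
      rw [msk_nb hB (hnt i)]
      exact fat_res hj hB _ f (hf u) h0)
  rw [gd_eq_gM, gd_eq_gM, gd_eq_gM, map_elim, map_elim, hm, hn] at h1
  have h2 : (univ : Finset (Fin s.toList.length)).val.map (fun i => insert j (m i)) =
      s.map (insert j) := by
    have h3 := congrArg (Multiset.map (insert j)) hm
    rw [Multiset.map_map] at h3
    exact h3
  rw [h2] at h1
  exact h1

end Pool.Agent.V7.GA
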